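import Pool.Agent.Q302.RN.Sing

/-! # Periodic points -/

set_option autoImplicit false

open Set Topology Filter

namespace Pool.Agent.Q302.RN

/-- `F` is a lift of `f`: a strictly increasing continuous map of degree one of the line. -/
structure IsLift (F : ℝ → ℝ) (f : C(S, S)) : Prop where
  cont : Continuous F
  mono : StrictMono F
  add_one : ∀ x, F (x + 1) = F x + 1
  coe : ∀ x : ℝ, f (x : S) = (F x : S)

theorem add_int {F : ℝ → ℝ} (h : ∀ x, F (x + 1) = F x + 1) (x : ℝ) (m : ℤ) :
    F (x + m) = F x + m := by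
  have hper : Function.Periodic (fun x => F x - x) 1 := by
    intro x
    change F (x + 1) - (x + 1) = F x - x
    rw [h]; ring
  have h1 := hper.int_mul m x
  simp only [mul_one] at h1
  linarith

/-- A degree one increasing map is a bijection whose inverse has the same properties. -/
theorem exists_inverse {F : ℝ → ℝ} (hc : Continuous F) (hm : StrictMono F)
    (h1 : ∀ x, F (x + 1) = F x + 1) :
    ∃ K : ℝ → ℝ, Continuous K ∧ StrictMono K ∧ (∀ x, K (x + 1) = K x + 1) ∧ ∀ x, F (K x) = x := by
  have htop : Tendsto F atTop atTop := by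
    rw [tendsto_atTop]
    intro b
    obtain ⟨n, hn⟩ := exists_int_gt (b - F 0)
    filter_upwards [eventually_ge_atTop (n : ℝ)] with x hx
    have h2 := add_int h1 0 n
    rw [zero_add] at h2
    have h3 := hm.monotone hx
    linarith
  have hbot : Tendsto F atBot atBot := by
    rw [tendsto_atBot]
    intro b
    obtain ⟨n, hn⟩ := exists_int_lt (b - F 0)
    filter_upwards [eventually_le_atBot (n : ℝ)] with x hx
    have h2 := add_int h1 0 n
    rw [zero_add] at h2
    have h3 := hm.monotone hx
    linarith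
  have hs : Function.Surjective F := hc.surjective htop hbot
  let e : ℝ ≃o ℝ := StrictMono.orderIsoOfSurjective F hm hs
  have he : ∀ x, F (e.symm x) = x := fun x => e.apply_symm_apply x
  refine ⟨e.symm, e.symm.continuous, e.symm.strictMono, fun x => ?_, he⟩
  apply hm.injective
  rw [he, h1, he]

/-- If every interval is mapped into a translate of an interval, then there is a periodic point. -/
theorem exists_periodic {N : ℕ} (hN : Nonempty (Fin N)) {F : ℝ → ℝ} (hc : Continuous F)
    (h1 : ∀ x, F (x + 1) = F x + 1) (p q : Fin N → ℝ) (hpq : ∀ i, p i ≤ q i)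
    (h : ∀ i, ∃ (j : Fin N) (m : ℤ), ∀ t, p i ≤ t → t ≤ q i → p j + m ≤ F t ∧ F t ≤ q j + m) :
    ∃ (n : ℕ) (x : ℝ) (m : ℤ), 1 ≤ n ∧ F^[n] x = x + m := by
  choose J m hJ using h
  -- iterates
  have hit : ∀ n : ℕ, ∀ i, ∃ M : ℤ, ∀ t, p i ≤ t → t ≤ q i →
      p (J^[n] i) + M ≤ F^[n] t ∧ F^[n] t ≤ q (J^[n] i) + M := by
    intro n
    induction n with
    | zero => exact fun i => ⟨0, fun t h2 h3 => by simpa using ⟨h2, h3⟩⟩
    | succ n ih =>
      intro i
      obtain ⟨M, hM⟩ := ih i
      refine ⟨M + m (J^[n] i), fun t h2 h3 => ?_⟩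
      obtain ⟨h4, h5⟩ := hM t h2 h3
      rw [Function.iterate_succ_apply', Function.iterate_succ_apply']
      have h6 : F (F^[n] t) = F (F^[n] t - M) + M := by
        have := add_int h1 (F^[n] t - M) M
        rw [sub_add_cancel] at this
        exact this
      obtain ⟨h7, h8⟩ := hJ (J^[n] i) (F^[n] t - M) (by linarith) (by linarith)
      rw [h6]
      push_cast
      constructor <;> linarith
  obtain ⟨i0⟩ := hN
  obtain ⟨a, b, hab, he⟩ := Finite.exists_ne_map_eq_of_infinite (fun n : ℕ => J^[n] i0)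
  obtain ⟨a, b, hab, he⟩ : ∃ a b : ℕ, a < b ∧ J^[a] i0 = J^[b] i0 := by
    rcases lt_or_gt_of_ne hab with h2 | h2
    · exact ⟨a, b, h2, he⟩
    · exact ⟨b, a, h2, he.symm⟩
  set i := J^[a] i0 with hi
  have hper : J^[b - a] i = i := by
    rw [hi, ← Function.iterate_add_apply, show b - a + a = b by omega]
    exact he.symm
  obtain ⟨M, hM⟩ := hit (b - a) i
  rw [hper] at hM
  have hcont : ContinuousOn (fun t => F^[b - a] t - M) (Icc (p i) (q i)) :=
    ((hc.iterate _).sub continuous_const).continuousOn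
  obtain ⟨x, -, hx⟩ := exists_mem_Icc_isFixedPt_of_mapsTo hcont (hpq i) (fun t ht => by
    obtain ⟨h2, h3⟩ := hM t ht.1 ht.2
    exact ⟨by linarith, by linarith⟩)
  refine ⟨b - a, x, M, by omega, ?_⟩
  have h2 : F^[b - a] x - M = x := hx
  linarith

end Pool.Agent.Q302.RN
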