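import Pool.Agent.Q302.RN.Meas

/-! # The group of the circle homeomorphisms -/

set_option autoImplicit false

open Set Topology Filter MeasureTheory

namespace Pool.Agent.Q302.RN

/-- The circle map of a degree one map. -/
theorem exists_ofLift {F : ℝ → ℝ} (hF : Continuous F) (h1 : ∀ x, F (x + 1) = F x + 1) :
    ∃ f : C(S, S), ∀ x : ℝ, f (x : S) = (F x : S) := by
  have hper : Function.Periodic (fun x => (F x : S)) 1 := by
    intro x
    change ((F (x + 1) : ℝ) : S) = (F x : S)
    rw [h1]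
    exact AddCircle.coe_add_period 1 _
  have hc : Continuous (hper.lift : S → S) :=
    continuous_coinduced_dom.2 ((AddCircle.continuous_mk' 1).comp hF)
  exact ⟨⟨hper.lift, hc⟩, fun x => Function.Periodic.lift_coe hper x⟩

/-- The orientation preserving homeomorphisms of the circle. -/
def HomeoPlus : Set C(S, S) := {f | ∃ F : ℝ → ℝ, IsLift F f}

theorem injective_of_lift {F : ℝ → ℝ} {f : C(S, S)} (h : IsLift F f) : Function.Injective f := by
  intro y z hyz
  obtain ⟨s, rfl⟩ := QuotientAddGroup.mk_surjective y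
  obtain ⟨t, rfl⟩ := QuotientAddGroup.mk_surjective z
  have h1 : ((F s : ℝ) : S) = (F t : S) := by
    rw [← h.coe, ← h.coe]; exact hyz
  have h2 : ((F s - F t : ℝ) : S) = 0 := by rw [AddCircle.coe_sub, h1, sub_self]
  obtain ⟨n, hn⟩ := (AddCircle.coe_eq_zero_iff (1 : ℝ)).1 h2
  have h3 : F s = F (t + n) := by
    rw [add_int h.add_one]
    have : (n : ℝ) = F s - F t := by rw [← hn]; simp
    linarith
  have h4 := h.mono.injective h3
  change ((s : ℝ) : S) = (t : S)
  rw [h4, AddCircle.coe_add]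
  have : ((n : ℝ) : S) = 0 := (AddCircle.coe_eq_zero_iff (1 : ℝ)).2 ⟨n, by simp⟩
  rw [this, add_zero]

theorem isClosed_periodic (n : ℕ) : IsClosed {f : C(S, S) | ∃ z, f^[n] z = z} := by
  have hit : ∀ n : ℕ, Continuous fun p : C(S, S) × S => p.1^[n] p.2 := by
    intro n
    induction n with
    | zero => exact continuous_snd
    | succ n ih =>
      have h1 : (fun p : C(S, S) × S => p.1^[n + 1] p.2) =
          fun p : C(S, S) × S => p.1 (p.1^[n] p.2) := by
        funext p
        exact Function.iterate_succ_apply' _ _ _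
      rw [h1]
      exact continuous_eval.comp (continuous_fst.prodMk ih)
  have h2 : {f : C(S, S) | ∃ z, f^[n] z = z} =
      Prod.fst '' {p : C(S, S) × S | p.1^[n] p.2 = p.2} := by
    ext f
    constructor
    · rintro ⟨z, hz⟩
      exact ⟨(f, z), hz, rfl⟩
    · rintro ⟨⟨f', z⟩, hz, rfl⟩
      exact ⟨z, hz⟩
  rw [h2]
  exact isClosedMap_fst_of_compactSpace _ (isClosed_eq (hit n) continuous_snd)

/-- The maps without periodic points. -/
def NP : Set C(S, S) := {f | ∀ n : ℕ, 1 ≤ n → ∀ z, f^[n] z ≠ z}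

theorem isGδ_NP : IsGδ NP := by
  have h : NP = ⋂ n : ℕ, {f : C(S, S) | ∃ z, f^[n + 1] z = z}ᶜ := by
    ext f
    simp only [NP, mem_iInter, mem_compl_iff, Set.mem_ofPred_eq, not_exists]
    constructor
    · intro h n z; exact h (n + 1) (by omega) z
    · intro h n hn z
      obtain ⟨m, rfl⟩ : ∃ m, n = m + 1 := ⟨n - 1, by omega⟩
      exact h m z
  rw [h]
  exact IsGδ.iInter_of_isOpen fun n => (isClosed_periodic _).isOpen_compl

/-- The main theorem. -/
theorem main (m : MeasurableSpace HomeoPlus) (hm : m = borel HomeoPlus) :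
    MeasurableSet {f : HomeoPlus | f.1 ∈ NP} ∧ ∃ μ : Measure HomeoPlus, IsProbabilityMeasure μ ∧
      ∀ g h : HomeoPlus, μ {x : HomeoPlus | ∃ b ∈ {f : HomeoPlus | f.1 ∈ NP},
        x.1 = g.1.comp (b.1.comp h.1)} = 0 := by
  have hb : BorelSpace HomeoPlus := ⟨hm⟩
  refine ⟨(isGδ_NP.preimage continuous_subtype_val).measurableSet, ?_⟩
  obtain ⟨Φ, hΦ, hΦm, hΦ1, hcfg⟩ := exists_sing
  obtain ⟨φ, hφ⟩ := exists_ofLift hΦ hΦ1
  -- the random homeomorphism
  let ψ : ℝ × S → C(S, S) := fun p => ⟨fun z => φ (z - p.2) + (p.1 : S),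
    (φ.continuous.comp (continuous_id.sub continuous_const)).add continuous_const⟩
  have hψc : Continuous ψ := by
    refine ContinuousMap.continuous_of_continuous_uncurry _ ?_
    exact (φ.continuous.comp (continuous_snd.sub (continuous_snd.comp continuous_fst))).add
      ((AddCircle.continuous_mk' 1).comp (continuous_fst.comp continuous_fst))
  have hψl : ∀ (η θ x : ℝ), ψ (η, (θ : S)) (x : S) = ((Φ (x - θ) + η : ℝ) : S) := by
    intro η θ x
    change φ ((x : S) - (θ : S)) + (η : S) = _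
    rw [← AddCircle.coe_sub, hφ, ← AddCircle.coe_add]
  have hψG : ∀ p, ψ p ∈ HomeoPlus := by
    rintro ⟨η, θ'⟩
    obtain ⟨θ, rfl⟩ := QuotientAddGroup.mk_surjective θ'
    refine ⟨fun x => Φ (x - θ) + η, ?_, ?_, ?_, hψl η θ⟩
    · exact (hΦ.comp (continuous_id.sub continuous_const)).add continuous_const
    · intro x y hxy
      exact add_lt_add_left (hΦm (by linarith)) _
    · intro x
      change Φ (x + 1 - θ) + η = Φ (x - θ) + η + 1
      rw [show x + 1 - θ = (x - θ) + 1 by ring, hΦ1]
      ring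
  let Ψ : ℝ × S → HomeoPlus := fun p => ⟨ψ p, hψG p⟩
  have hΨ : Continuous Ψ := hψc.subtype_mk _
  refine ⟨Measure.map Ψ ν, Measure.isProbabilityMeasure_map hΨ.aemeasurable, ?_⟩
  rintro ⟨g, Gl, hG⟩ ⟨h, Hl, hH⟩
  -- the inverse of the composition
  obtain ⟨K, hK, hKm, hK1, hKr⟩ := exists_inverse (hG.cont.comp hH.cont) (hG.mono.comp hH.mono)
    (fun x => by
      change Gl (Hl (x + 1)) = Gl (Hl x) + 1
      rw [hH.add_one, hG.add_one])
  obtain ⟨k, hk⟩ := exists_ofLift hK hK1
  have hghk : ∀ z, g (h (k z)) = z := by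
    intro z
    obtain ⟨t, rfl⟩ := QuotientAddGroup.mk_surjective z
    have h1 : k (t : S) = (K t : S) := hk t
    change g (h (k (t : S))) = (t : S)
    rw [h1, hH.coe, hG.coe]
    exact congrArg _ (hKr t)
  have hginj := injective_of_lift hG
  set T' : Set HomeoPlus := {x | x.1.comp k ∈ NP} with hT'
  have hT'm : MeasurableSet T' := by
    have hc : Continuous fun x : HomeoPlus => x.1.comp k :=
      (ContinuousMap.continuous_precomp k).comp continuous_subtype_val
    exact (isGδ_NP.preimage hc).measurableSet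
  have hsub : {x : HomeoPlus | ∃ b ∈ {f : HomeoPlus | f.1 ∈ NP},
      x.1 = g.comp (b.1.comp h)} ⊆ T' := by
    rintro x ⟨b, hb, hx⟩ n hn z hz
    have hsemi : Function.Semiconj (fun z => h (k z)) (x.1.comp k) b.1 := by
      intro y
      apply hginj
      change g (h (k (x.1 (k y)))) = g (b.1 (h (k y)))
      rw [hghk, hx]
      rfl
    have h1 := (hsemi.iterate_right n) z
    rw [hz] at h1
    exact hb n hn _ h1.symm
  refine measure_mono_null hsub ?_
  rw [Measure.map_apply hΨ.measurable hT'm]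
  refine measure_mono_null ?_ (null hΦ hΦm hΦ1 hcfg hK hKm hK1)
  rintro ⟨η, θ'⟩ hp hall
  obtain ⟨θ, rfl⟩ := QuotientAddGroup.mk_surjective θ'
  obtain ⟨n, x, M, hn, hx⟩ := hall θ rfl
  have hsemi : Function.Semiconj (fun t : ℝ => ((t + η : ℝ) : S))
      (fun t => Φ (K (t + η) - θ)) ((ψ (η, (θ : S))).comp k) := by
    intro t
    change ((Φ (K (t + η) - θ) + η : ℝ) : S) = ψ (η, (θ : S)) (k ((t + η : ℝ) : S))
    rw [hk, hψl]
  have h1 := (hsemi.iterate_right n) x
  rw [hx] at h1
  refine hp n hn ((x + η : ℝ) : S) ?_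
  have h2 : (((x + M) + η : ℝ) : S) = ((x + η : ℝ) : S) := by
    rw [show (x + M) + η = (x + η) + M by ring, AddCircle.coe_add (1 : ℝ) (x + η) M]
    have : ((M : ℝ) : S) = 0 := (AddCircle.coe_eq_zero_iff (1 : ℝ)).2 ⟨M, by simp⟩
    rw [this, add_zero]
  exact h1.symm.trans h2

/-- A periodic point makes the rotation number rational. -/
theorem not_irrational {F : ℝ → ℝ} {f : C(S, S)} (h : IsLift F f) {n : ℕ} (hn : 1 ≤ n) {z : S}
    (hz : f^[n] z = z) {τ : ℝ} (hτ : ∀ x, Tendsto (fun n : ℕ => (F^[n] x - x) / n) atTop (𝓝 τ)) :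
    ¬ Irrational τ := by
  obtain ⟨x, rfl⟩ := QuotientAddGroup.mk_surjective z
  have hit : ∀ n : ℕ, f^[n] (x : S) = (F^[n] x : S) := by
    intro n
    induction n with
    | zero => rfl
    | succ n ih =>
      rw [Function.iterate_succ_apply', ih, h.coe, Function.iterate_succ_apply']
  have h1 : ((F^[n] x : ℝ) : S) = (x : S) := by rw [← hit]; exact hz
  have h2 : ((F^[n] x - x : ℝ) : S) = 0 := by rw [AddCircle.coe_sub, h1, sub_self]
  obtain ⟨m, hm⟩ := (AddCircle.coe_eq_zero_iff (1 : ℝ)).1 h2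
  have h3 : F^[n] x = x + m := by
    have : (m : ℝ) = F^[n] x - x := by rw [← hm]; simp
    linarith
  have hFn1 : ∀ y, F^[n] (y + 1) = F^[n] y + 1 := by
    have : ∀ k : ℕ, ∀ y, F^[k] (y + 1) = F^[k] y + 1 := by
      intro k
      induction k with
      | zero => exact fun y => rfl
      | succ k ih =>
        intro y
        rw [Function.iterate_succ_apply', ih, h.add_one, Function.iterate_succ_apply']
    exact this n
  have h4 : ∀ k : ℕ, F^[n * k] x = x + k * m := by
    intro k
    induction k with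
    | zero => simp
    | succ k ih =>
      rw [Nat.mul_succ, Nat.add_comm, Function.iterate_add_apply, ih]
      have h5 := add_int hFn1 x (k * m)
      push_cast at h5
      rw [h5, h3]
      push_cast
      ring
  have hn0 : (n : ℝ) ≠ 0 := by
    have : n ≠ 0 := by omega
    exact_mod_cast this
  have h5 : Tendsto (fun k : ℕ => (F^[n * k] x - x) / ((n * k : ℕ) : ℝ)) atTop (𝓝 τ) := by
    refine (hτ x).comp (tendsto_atTop_mono (fun k => ?_) tendsto_id)
    exact Nat.le_mul_of_pos_left k (by omega)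
  have h6 : Tendsto (fun k : ℕ => (F^[n * k] x - x) / ((n * k : ℕ) : ℝ)) atTop (𝓝 (m / n)) := by
    refine tendsto_const_nhds.congr' ?_
    filter_upwards [eventually_ge_atTop 1] with k hk
    have hk0 : (k : ℝ) ≠ 0 := by
      have : k ≠ 0 := by omega
      exact_mod_cast this
    rw [h4]
    push_cast
    field_simp
    ring
  have h7 := tendsto_nhds_unique h5 h6
  rw [h7]
  intro hirr
  exact hirr ⟨(m : ℚ) / n, by push_cast; rfl⟩

end Pool.Agent.Q302.RN
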