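import Pool.Agent.Q302.RN.Dyn

/-! # The measure estimate -/

set_option autoImplicit false

open Set Topology Filter MeasureTheory
open scoped ENNReal

namespace Pool.Agent.Q302.RN

/-- No gap is met: there is a periodic point. -/
theorem periodic_of_good {Φ K : ℝ → ℝ} (hΦ : Continuous Φ) (hΦm : StrictMono Φ)
    (hΦ1 : ∀ x, Φ (x + 1) = Φ x + 1) (hK : Continuous K) (hKm : StrictMono K)
    (hK1 : ∀ x, K (x + 1) = K x + 1) {N : ℕ} {a b c : Fin N → ℝ} (hab : ∀ i, a i ≤ b i)
    (hcov : ∀ x : ℝ, ∃ (i : Fin N) (m : ℤ), a i + m ≤ x ∧ x ≤ c i + m) (η θ : ℝ)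
    (hgood : ∀ (i j : Fin N) (m : ℤ), ¬ (b j + m ≤ K (Φ (b i) + η) - θ ∧
      K (Φ (a i) + η) - θ ≤ c j + m)) :
    ∃ (n : ℕ) (x : ℝ) (m : ℤ), 1 ≤ n ∧ (fun t => Φ (K (t + η) - θ))^[n] x = x + m := by
  refine exists_periodic ⟨(hcov 0).choose⟩ ?_ ?_ (fun i => Φ (a i)) (fun i => Φ (b i))
    (fun i => hΦm.monotone (hab i)) ?_
  · exact hΦ.comp ((hK.comp (continuous_id.add continuous_const)).sub continuous_const)
  · intro x
    change Φ (K (x + 1 + η) - θ) = Φ (K (x + η) - θ) + 1
    rw [show x + 1 + η = (x + η) + 1 by ring, hK1, show K (x + η) + 1 - θ = K (x + η) - θ + 1 by ring,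
      hΦ1]
  · intro i
    obtain ⟨j, m, h1, h2⟩ := hcov (K (Φ (a i) + η) - θ)
    have h3 : K (Φ (b i) + η) - θ < b j + m := by
      by_contra hno
      push Not at hno
      exact hgood i j m ⟨hno, h2⟩
    refine ⟨j, m, fun t ht1 ht2 => ?_⟩
    have h4 : K (Φ (a i) + η) ≤ K (t + η) := hKm.monotone (by linarith)
    have h5 : K (t + η) ≤ K (Φ (b i) + η) := hKm.monotone (by linarith)
    have h6 : Φ (a j + m) ≤ Φ (K (t + η) - θ) := hΦm.monotone (by linarith)
    have h7 : Φ (K (t + η) - θ) ≤ Φ (b j + m) := hΦm.monotone (by linarith)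
    rw [add_int hΦ1] at h6 h7
    exact ⟨h6, h7⟩

/-- The shifts of a degree one map. -/
theorem integral_shift {K : ℝ → ℝ} (hK : Continuous K) (hK1 : ∀ x, K (x + 1) = K x + 1)
    (α β : ℝ) : ∫ η in (0 : ℝ)..1, (K (β + η) - K (α + η)) = β - α := by
  have hi : ∀ u v : ℝ, IntervalIntegrable K volume u v := fun u v => hK.intervalIntegrable u v
  have h1 : ∀ γ : ℝ, IntervalIntegrable (fun η => K (γ + η)) volume 0 1 := fun γ =>
    (hK.comp (continuous_const.add continuous_id)).intervalIntegrable _ _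
  rw [intervalIntegral.integral_sub (h1 β) (h1 α), intervalIntegral.integral_comp_add_left,
    intervalIntegral.integral_comp_add_left, add_zero, add_zero,
    intervalIntegral.integral_interval_sub_interval_comm (hi _ _) (hi _ _) (hi _ _)]
  have h2 : ∫ x in (β + 1)..(α + 1), K x = ∫ x in β..α, (K x + 1) := by
    rw [← intervalIntegral.integral_comp_add_right]
    exact intervalIntegral.integral_congr fun x _ => hK1 x
  rw [h2, intervalIntegral.integral_add (hi _ _) intervalIntegrable_const,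
    intervalIntegral.integral_const]
  simp

/-- The closed bad sets. -/
def Bad (K : ℝ → ℝ) (α β b c : ℝ) : Set (ℝ × S) :=
  {p | dist p.2 ((((K (α + p.1) - c) + (K (β + p.1) - b)) / 2 : ℝ) : S) ≤
    ((K (β + p.1) - b) - (K (α + p.1) - c)) / 2}

theorem isClosed_Bad {K : ℝ → ℝ} (hK : Continuous K) (α β b c : ℝ) : IsClosed (Bad K α β b c) := by
  have h1 : ∀ γ : ℝ, Continuous fun p : ℝ × S => K (γ + p.1) := fun γ =>
    hK.comp (continuous_const.add continuous_fst)
  refine isClosed_le ?_ ?_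
  · refine continuous_snd.dist ((AddCircle.continuous_mk' 1).comp ?_)
    exact (((h1 α).sub continuous_const).add ((h1 β).sub continuous_const)).div_const _
  · exact (((h1 β).sub continuous_const).sub ((h1 α).sub continuous_const)).div_const _

theorem mem_Bad {K : ℝ → ℝ} {α β b c η θ : ℝ} {m : ℤ} (h1 : b + m ≤ K (β + η) - θ)
    (h2 : K (α + η) - θ ≤ c + m) : ((η, (θ : S)) : ℝ × S) ∈ Bad K α β b c := by
  change dist (θ : S) _ ≤ _
  have h3 : (θ : S) = ((θ + m : ℝ) : S) := by
    rw [AddCircle.coe_add]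
    have : ((m : ℝ) : S) = 0 := (AddCircle.coe_eq_zero_iff (1 : ℝ)).2 ⟨m, by simp⟩
    rw [this, add_zero]
  rw [h3, dist_eq_norm, ← AddCircle.coe_sub]
  refine QuotientAddGroup.norm_mk_le_norm.trans ?_
  rw [Real.norm_eq_abs, abs_le]
  constructor <;> linarith

/-- The measure on the parameters. -/
noncomputable def ν : Measure (ℝ × S) := (volume.restrict (Ioc (0 : ℝ) 1)).prod volume

instance instProbν : IsProbabilityMeasure ν := by
  have h1 : IsProbabilityMeasure (volume.restrict (Ioc (0 : ℝ) 1)) := ⟨by simp⟩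
  have h2 : IsProbabilityMeasure (volume : Measure S) := ⟨by
    rw [AddCircle.measure_univ, ENNReal.ofReal_one]⟩
  rw [ν]
  infer_instance

theorem ν_Bad {K : ℝ → ℝ} (hK : Continuous K) (hKm : StrictMono K)
    (hK1 : ∀ x, K (x + 1) = K x + 1) {α β b c : ℝ} (hαβ : α ≤ β) (hbc : b ≤ c) :
    ν (Bad K α β b c) ≤ ENNReal.ofReal ((β - α) + (c - b)) := by
  have h2 : IsProbabilityMeasure (volume : Measure S) := ⟨by
    rw [AddCircle.measure_univ, ENNReal.ofReal_one]⟩
  rw [ν, Measure.prod_apply (isClosed_Bad hK α β b c).measurableSet]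
  have hsec : ∀ η : ℝ, volume (Prod.mk η ⁻¹' Bad K α β b c) ≤
      ENNReal.ofReal ((K (β + η) - K (α + η)) + (c - b)) := by
    intro η
    have h3 : Prod.mk η ⁻¹' Bad K α β b c = Metric.closedBall
        ((((K (α + η) - c) + (K (β + η) - b)) / 2 : ℝ) : S)
        (((K (β + η) - b) - (K (α + η) - c)) / 2) := rfl
    rw [h3, AddCircle.volume_closedBall]
    refine ENNReal.ofReal_le_ofReal ((min_le_right _ _).trans (le_of_eq ?_))
    ring
  refine (lintegral_mono hsec).trans ?_
  have hcont : Continuous fun η : ℝ => (K (β + η) - K (α + η)) + (c - b) :=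
    ((hK.comp (continuous_const.add continuous_id)).sub
      (hK.comp (continuous_const.add continuous_id))).add continuous_const
  rw [← ofReal_integral_eq_lintegral_ofReal]
  · refine ENNReal.ofReal_le_ofReal (le_of_eq ?_)
    rw [← intervalIntegral.integral_of_le zero_le_one, intervalIntegral.integral_add,
      integral_shift hK hK1, intervalIntegral.integral_const]
    · simp
    · exact ((hK.comp (continuous_const.add continuous_id)).sub
        (hK.comp (continuous_const.add continuous_id))).intervalIntegrable _ _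
    · exact intervalIntegrable_const
  · exact (hcont.integrableOn_Icc (a := 0) (b := 1)).mono_set Ioc_subset_Icc_self
  · refine Filter.Eventually.of_forall fun η => ?_
    have : K (α + η) ≤ K (β + η) := hKm.monotone (by linarith)
    change 0 ≤ (K (β + η) - K (α + η)) + (c - b)
    linarith

/-- The exceptional parameters form a null set. -/
theorem null {Φ K : ℝ → ℝ} (hΦ : Continuous Φ) (hΦm : StrictMono Φ)
    (hΦ1 : ∀ x, Φ (x + 1) = Φ x + 1) (hcfg : ∀ ε > 0, Config Φ ε) (hK : Continuous K)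
    (hKm : StrictMono K) (hK1 : ∀ x, K (x + 1) = K x + 1) :
    ν {p : ℝ × S | ¬ ∀ θ : ℝ, (θ : S) = p.2 → ∃ (n : ℕ) (x : ℝ) (m : ℤ), 1 ≤ n ∧
      (fun t => Φ (K (t + p.1) - θ))^[n] x = x + m} = 0 := by
  refine le_antisymm (ENNReal.le_of_forall_pos_le_add fun ε hε _ => ?_) bot_le
  obtain ⟨N, a, b, c, hab, hbc, hcov, hlt⟩ := hcfg ε hε
  have hsub : {p : ℝ × S | ¬ ∀ θ : ℝ, (θ : S) = p.2 → ∃ (n : ℕ) (x : ℝ) (m : ℤ), 1 ≤ n ∧
      (fun t => Φ (K (t + p.1) - θ))^[n] x = x + m} ⊆
      ⋃ i : Fin N, ⋃ j : Fin N, Bad K (Φ (a i)) (Φ (b i)) (b j) (c j) := by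
    rintro ⟨η, θ'⟩ hp
    by_contra hno
    apply hp
    rintro θ rfl
    refine periodic_of_good hΦ hΦm hΦ1 hK hKm hK1 hab hcov η θ fun i j m hh => hno ?_
    exact mem_iUnion.2 ⟨i, mem_iUnion.2 ⟨j, mem_Bad hh.1 hh.2⟩⟩
  refine (measure_mono hsub).trans ((measure_iUnion_le _).trans ?_)
  rw [tsum_fintype]
  have h1 : ∀ i : Fin N, ν (⋃ j : Fin N, Bad K (Φ (a i)) (Φ (b i)) (b j) (c j)) ≤
      ENNReal.ofReal (∑ j : Fin N, ((Φ (b i) - Φ (a i)) + (c j - b j))) := by
    intro i
    refine (measure_iUnion_le _).trans ?_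
    rw [tsum_fintype, ENNReal.ofReal_sum_of_nonneg]
    · exact Finset.sum_le_sum fun j _ => ν_Bad hK hKm hK1 (hΦm.monotone (hab i)) (hbc j)
    · intro j _
      have := hΦm.monotone (hab i)
      have := hbc j
      linarith
  refine (Finset.sum_le_sum fun i _ => h1 i).trans ?_
  rw [← ENNReal.ofReal_sum_of_nonneg]
  · have h2 : ∑ i : Fin N, ∑ j : Fin N, ((Φ (b i) - Φ (a i)) + (c j - b j)) =
        (N : ℝ) * (∑ i, (c i - b i) + ∑ i, (Φ (b i) - Φ (a i))) := by
      simp only [Finset.sum_add_distrib, Finset.sum_const, Finset.card_univ, Fintype.card_fin,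
        nsmul_eq_mul]
      rw [← Finset.mul_sum]
      ring
    rw [h2, zero_add]
    exact (ENNReal.ofReal_le_ofReal hlt.le).trans (by simp)
  · intro i _
    refine Finset.sum_nonneg fun j _ => ?_
    have := hΦm.monotone (hab i)
    have := hbc j
    linarith

end Pool.Agent.Q302.RN
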