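import Mathlib

/-! # A very singular homeomorphism of the circle -/

set_option autoImplicit false

open Set Topology Filter

namespace Pool.Agent.Q302.RN

/-- The circle. -/
abbrev S : Type := UnitAddCircle

/-- The function `Φ` has a configuration of quality `ε`: finitely many intervals `[a i, b i]`
followed by gaps `[b i, c i]`, which cover the line modulo `1`, such that the number of intervals
times the total length of the gaps and of the images of the intervals is less than `ε`. -/
def Config (Φ : ℝ → ℝ) (ε : ℝ) : Prop :=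
  ∃ (N : ℕ) (a b c : Fin N → ℝ), (∀ i, a i ≤ b i) ∧ (∀ i, b i ≤ c i) ∧
    (∀ x : ℝ, ∃ (i : Fin N) (m : ℤ), a i + m ≤ x ∧ x ≤ c i + m) ∧
    (N : ℝ) * (∑ i, (c i - b i) + ∑ i, (Φ (b i) - Φ (a i))) < ε

/-! ### The power map -/

/-- The staircase of powers. -/
noncomputable def pw (K : ℕ) (t : ℝ) : ℝ := ⌊t⌋ + Int.fract t ^ K

theorem pw_eq (K : ℕ) (t : ℝ) : pw K t = t + (Int.fract t ^ K - Int.fract t) := by
  have := Int.floor_add_fract t
  rw [pw]
  linarith

theorem continuous_pw {K : ℕ} (hK : 1 ≤ K) : Continuous (pw K) := by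
  have h : pw K = fun t => t + (Int.fract t ^ K - Int.fract t) := funext (pw_eq K)
  rw [h]
  refine continuous_id.add ?_
  have h2 : Continuous ((fun s : ℝ => s ^ K - s) ∘ Int.fract) := by
    refine ContinuousOn.comp_fract'' ?_ ?_
    · fun_prop
    · simp [show K ≠ 0 by omega]
  exact h2

theorem pw_add_one (K : ℕ) (t : ℝ) : pw K (t + 1) = pw K t + 1 := by
  rw [pw, pw, Int.floor_add_one, Int.fract_add_one]
  push_cast
  ring

theorem pw_add_int (K : ℕ) (t : ℝ) (m : ℤ) : pw K (t + m) = pw K t + m := by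
  rw [pw, pw, Int.floor_add_intCast, Int.fract_add_intCast]
  push_cast
  ring

theorem abs_pw_sub (K : ℕ) (t : ℝ) : |pw K t - t| ≤ 1 := by
  rw [pw_eq, add_sub_cancel_left, abs_le]
  have h1 := Int.fract_nonneg t
  have h2 := (Int.fract_lt_one t).le
  have h3 : 0 ≤ Int.fract t ^ K := pow_nonneg h1 K
  have h4 : Int.fract t ^ K ≤ 1 := pow_le_one₀ h1 h2
  constructor <;> linarith

theorem monotone_pw (K : ℕ) : Monotone (pw K) := by
  intro s t hst
  rcases lt_or_eq_of_le (Int.floor_mono hst) with h | h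
  · have h1 : (⌊s⌋ : ℝ) + 1 ≤ ⌊t⌋ := by exact_mod_cast h
    have h2 : Int.fract s ^ K ≤ 1 := pow_le_one₀ (Int.fract_nonneg s) (Int.fract_lt_one s).le
    have h3 : 0 ≤ Int.fract t ^ K := pow_nonneg (Int.fract_nonneg t) K
    rw [pw, pw]
    linarith
  · have h1 : Int.fract s ≤ Int.fract t := by
      rw [Int.fract, Int.fract, h]
      linarith
    have h2 : Int.fract s ^ K ≤ Int.fract t ^ K := pow_le_pow_left₀ (Int.fract_nonneg s) h1 K
    rw [pw, pw, h]
    linarith

/-! ### The space of degree one monotone maps -/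

/-- The map of the line with displacement `u`. -/
def lift (u : C(S, ℝ)) (x : ℝ) : ℝ := x + u (x : S)

theorem continuous_lift (u : C(S, ℝ)) : Continuous (lift u) :=
  continuous_id.add (u.continuous.comp (AddCircle.continuous_mk' 1))

theorem lift_add_one (u : C(S, ℝ)) (x : ℝ) : lift u (x + 1) = lift u x + 1 := by
  have h : ((x + 1 : ℝ) : S) = (x : S) := AddCircle.coe_add_period 1 x
  rw [lift, lift, h]
  ring

/-- The monotone maps. -/
def E : Set C(S, ℝ) := {u | Monotone (lift u)}

theorem isClosed_E : IsClosed E := by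
  have h : E = ⋂ p : {p : ℝ × ℝ // p.1 ≤ p.2}, {u : C(S, ℝ) | lift u p.1.1 ≤ lift u p.1.2} := by
    ext u
    simp only [mem_iInter, Subtype.forall, Prod.forall]
    exact ⟨fun h a b hab => h hab, fun h a b hab => h a b hab⟩
  rw [h]
  refine isClosed_iInter fun p => ?_
  have h1 : ∀ x : ℝ, Continuous fun u : C(S, ℝ) => lift u x := fun x =>
    continuous_const.add (continuous_eval_const (x : S))
  exact isClosed_le (h1 _) (h1 _)

theorem continuous_lift_left (x : ℝ) : Continuous fun u : C(S, ℝ) => lift u x :=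
  continuous_const.add (continuous_eval_const (x : S))

/-- A continuous map of degree one has a displacement function. -/
theorem exists_lift {F : ℝ → ℝ} (hF : Continuous F) (h1 : ∀ x, F (x + 1) = F x + 1) :
    ∃ u : C(S, ℝ), lift u = F := by
  have hper : Function.Periodic (fun x => F x - x) 1 := by
    intro x
    change F (x + 1) - (x + 1) = F x - x
    rw [h1]; ring
  have hc : Continuous (hper.lift : S → ℝ) := by
    refine continuous_coinduced_dom.2 ?_
    exact hF.sub continuous_id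
  refine ⟨⟨hper.lift, hc⟩, funext fun x => ?_⟩
  change x + hper.lift (x : S) = F x
  rw [Function.Periodic.lift_coe]
  ring

/-- Uniform continuity. -/
theorem exists_modulus (u : C(S, ℝ)) {r : ℝ} (hr : 0 < r) :
    ∃ η > 0, ∀ x y : ℝ, |x - y| < η → |lift u x - lift u y| < r := by
  have hu : UniformContinuous u := CompactSpace.uniformContinuous_of_continuous u.continuous
  obtain ⟨η, hη, h⟩ := Metric.uniformContinuous_iff.1 hu (r / 2) (by positivity)
  refine ⟨min η (r / 2), lt_min hη (by positivity), fun x y hxy => ?_⟩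
  have h1 : dist (x : S) (y : S) < η := by
    rw [dist_eq_norm, ← AddCircle.coe_sub]
    exact lt_of_le_of_lt QuotientAddGroup.norm_mk_le_norm (lt_of_lt_of_le hxy (min_le_left _ _))
  have h2 := h h1
  rw [Real.dist_eq] at h2
  have h3 : lift u x - lift u y = (x - y) + (u (x : S) - u (y : S)) := by
    rw [lift, lift]; ring
  rw [h3]
  have h4 := lt_of_lt_of_le hxy (min_le_right _ _)
  calc |(x - y) + (u (x : S) - u (y : S))| ≤ |x - y| + |u (x : S) - u (y : S)| := abs_add_le _ _
    _ < r / 2 + r / 2 := add_lt_add h4 h2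
    _ = r := by ring

theorem dist_le_of_lift {u v : C(S, ℝ)} {r : ℝ} (hr : 0 ≤ r)
    (h : ∀ x : ℝ, |lift u x - lift v x| ≤ r) : dist u v ≤ r := by
  rw [ContinuousMap.dist_le hr]
  intro z
  obtain ⟨x, rfl⟩ := QuotientAddGroup.mk_surjective z
  have h1 := h x
  rw [lift, lift, add_sub_add_left_eq_sub] at h1
  rw [Real.dist_eq]
  exact h1

/-- The scaled power map. -/
noncomputable def pwN (N K : ℕ) (x : ℝ) : ℝ := pw K (N * x) / N

theorem continuous_pwN {N K : ℕ} (hK : 1 ≤ K) : Continuous (pwN N K) :=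
  ((continuous_pw hK).comp (continuous_const.mul continuous_id)).div_const _

theorem pwN_add_one {N K : ℕ} (hN : 1 ≤ N) (x : ℝ) : pwN N K (x + 1) = pwN N K x + 1 := by
  have hN' : (N : ℝ) ≠ 0 := by
    have : N ≠ 0 := by omega
    exact_mod_cast this
  have h := pw_add_int K (N * x) N
  rw [pwN, pwN, mul_add, mul_one]
  push_cast at h
  rw [h]
  field_simp

theorem monotone_pwN (N K : ℕ) : Monotone (pwN N K) := fun _ _ hxy =>
  div_le_div_of_nonneg_right (monotone_pw K (mul_le_mul_of_nonneg_left hxy (Nat.cast_nonneg N)))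
    (Nat.cast_nonneg N)

theorem abs_pwN_sub {N K : ℕ} (hN : 1 ≤ N) (x : ℝ) : |pwN N K x - x| ≤ 1 / N := by
  have hN' : (0 : ℝ) < N := by exact_mod_cast hN
  have h1 : pwN N K x - x = (pw K (N * x) - N * x) / N := by
    rw [pwN]; field_simp
  rw [h1, abs_div, abs_of_pos hN']
  exact div_le_div_of_nonneg_right (abs_pw_sub K _) hN'.le

theorem mem_E_comp {u : C(S, ℝ)} (hu : u ∈ E) {N K : ℕ} (hN : 1 ≤ N) (hK : 1 ≤ K) :
    ∃ v ∈ E, ∀ x, lift v x = lift u (pwN N K x) := by
  obtain ⟨v, hv⟩ := exists_lift (F := fun x => lift u (pwN N K x))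
    ((continuous_lift u).comp (continuous_pwN hK)) (fun x => by
      rw [pwN_add_one hN, lift_add_one])
  refine ⟨v, ?_, fun x => by rw [hv]⟩
  change Monotone (lift v)
  rw [hv]
  exact (show Monotone (lift u) from hu).comp (monotone_pwN N K)

/-- The functions with a good configuration are dense. -/
theorem exists_config {u : C(S, ℝ)} (hu : u ∈ E) {r ε : ℝ} (hr : 0 < r) (hε : 0 < ε) :
    ∃ v ∈ E, dist v u < r ∧ Config (lift v) ε := by
  obtain ⟨η, hη, hmod⟩ := exists_modulus u (half_pos hr)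
  obtain ⟨n, hn⟩ := exists_nat_one_div_lt hη
  set N : ℕ := n + 1 with hN
  have hN1 : 1 ≤ N := by omega
  have hNR : (0 : ℝ) < N := by exact_mod_cast hN1
  have hNη : 1 / (N : ℝ) < η := by rw [hN]; push_cast; exact hn
  -- the size of the gaps
  obtain ⟨e, he0, he1, heN⟩ : ∃ e : ℝ, 0 < e ∧ e < 1 ∧ N * e < ε / 2 := by
    refine ⟨min (1 / 2) (ε / (4 * N)), lt_min (by norm_num) (by positivity),
      lt_of_le_of_lt (min_le_left _ _) (by norm_num), ?_⟩
    calc (N : ℝ) * min (1 / 2) (ε / (4 * N)) ≤ N * (ε / (4 * N)) :=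
          mul_le_mul_of_nonneg_left (min_le_right _ _) hNR.le
      _ = ε / 4 := by field_simp
      _ < ε / 2 := by linarith
  -- the exponent
  obtain ⟨η', hη', hmod'⟩ := exists_modulus u (show (0 : ℝ) < ε / (2 * N * N) by positivity)
  obtain ⟨K, hK⟩ := exists_pow_lt_of_lt_one hη' (show 1 - e < 1 by linarith)
  obtain ⟨v, hv, hvl⟩ := mem_E_comp hu (K := K + 1) hN1 (by omega)
  refine ⟨v, hv, ?_, N, fun i => (i : ℕ) / N, fun i => ((i : ℕ) + (1 - e)) / N,
    fun i => ((i : ℕ) + 1) / N, fun i => ?_, fun i => ?_, fun x => ?_, ?_⟩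
  · refine lt_of_le_of_lt (dist_le_of_lift (half_pos hr).le fun x => ?_) (half_lt_self hr)
    rw [hvl]
    exact (hmod _ _ (lt_of_le_of_lt (abs_pwN_sub hN1 x) hNη)).le
  · exact div_le_div_of_nonneg_right (by linarith) hNR.le
  · exact div_le_div_of_nonneg_right (by linarith) hNR.le
  · -- the intervals cover
    set y : ℝ := N * Int.fract x with hy
    have hy0 : 0 ≤ y := mul_nonneg hNR.le (Int.fract_nonneg x)
    have hy1 : y < N := by
      have := Int.fract_lt_one x
      nlinarith
    have hfl : ⌊y⌋₊ < N := (Nat.floor_lt hy0).2 hy1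
    refine ⟨⟨⌊y⌋₊, hfl⟩, ⌊x⌋, ?_, ?_⟩
    · have h1 := Nat.floor_le hy0
      have h2 := Int.floor_add_fract x
      have h3 : ((⌊y⌋₊ : ℕ) : ℝ) / N ≤ Int.fract x := by
        rw [div_le_iff₀ hNR]
        linarith
      change ((⌊y⌋₊ : ℕ) : ℝ) / N + ⌊x⌋ ≤ x
      linarith
    · have h1 := (Nat.lt_floor_add_one y).le
      have h2 := Int.floor_add_fract x
      have h3 : Int.fract x ≤ (((⌊y⌋₊ : ℕ) : ℝ) + 1) / N := by
        rw [le_div_iff₀ hNR]
        linarith
      change x ≤ (((⌊y⌋₊ : ℕ) : ℝ) + 1) / N + ⌊x⌋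
      linarith
  · -- the quality
    have h1 : ∑ i : Fin N, ((((i : ℕ) : ℝ) + 1) / N - (((i : ℕ) : ℝ) + (1 - e)) / N) = e := by
      have : ∀ i : Fin N, ((((i : ℕ) : ℝ) + 1) / N - (((i : ℕ) : ℝ) + (1 - e)) / N) = e / N := by
        intro i; ring
      rw [Finset.sum_congr rfl fun i _ => this i, Finset.sum_const, Finset.card_univ,
        Fintype.card_fin, nsmul_eq_mul]
      field_simp
    have h2 : ∀ i : Fin N, lift v ((((i : ℕ) : ℝ) + (1 - e)) / N) - lift v (((i : ℕ) : ℝ) / N) ≤
        ε / (2 * N * N) := by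
      intro i
      rw [hvl, hvl]
      have e1 : pwN N (K + 1) (((i : ℕ) : ℝ) / N) = ((i : ℕ) : ℝ) / N := by
        have h3 := pw_add_int (K + 1) 0 (i : ℕ)
        have h4 : pw (K + 1) 0 = 0 := by simp [pw]
        rw [h4, zero_add] at h3
        rw [pwN, mul_div_cancel₀ _ hNR.ne']
        push_cast at h3
        rw [h3]
      have e2 : pwN N (K + 1) ((((i : ℕ) : ℝ) + (1 - e)) / N) =
          (((i : ℕ) : ℝ) + (1 - e) ^ (K + 1)) / N := by
        have h3 := pw_add_int (K + 1) (1 - e) (i : ℕ)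
        have h4 : pw (K + 1) (1 - e) = (1 - e) ^ (K + 1) := by
          have h5 : ⌊(1 - e : ℝ)⌋ = 0 := Int.floor_eq_iff.2 ⟨by push_cast; linarith, by push_cast; linarith⟩
          have h6 : Int.fract (1 - e : ℝ) = 1 - e := by rw [Int.fract, h5]; simp
          rw [pw, h5, h6]; simp
        rw [pwN, mul_div_cancel₀ _ hNR.ne', add_comm ((i : ℕ) : ℝ)]
        push_cast at h3
        rw [h3, h4]
        ring
      rw [e1, e2]
      refine (le_abs_self _).trans (hmod' _ _ ?_).le
      rw [← sub_div, add_sub_cancel_left, abs_of_nonneg (by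
        refine div_nonneg (pow_nonneg (by linarith) _) hNR.le)]
      have h7 : (1 - e) ^ (K + 1) ≤ (1 - e) ^ K := pow_le_pow_of_le_one (by linarith) (by linarith) (by omega)
      have h8 : (1 - e) ^ (K + 1) / N ≤ (1 - e) ^ (K + 1) := by
        rw [div_le_iff₀ hNR]
        have h9 : (0 : ℝ) ≤ (1 - e) ^ (K + 1) := pow_nonneg (by linarith) _
        have h10 : (1 : ℝ) ≤ N := by exact_mod_cast hN1
        nlinarith
      linarith
    have h3 : ∑ i : Fin N, (lift v ((((i : ℕ) : ℝ) + (1 - e)) / N) - lift v (((i : ℕ) : ℝ) / N)) ≤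
        ε / (2 * N) := by
      refine (Finset.sum_le_sum fun i _ => h2 i).trans (le_of_eq ?_)
      rw [Finset.sum_const, Finset.card_univ, Fintype.card_fin, nsmul_eq_mul]
      field_simp
    rw [h1]
    calc (N : ℝ) * (e + ∑ i : Fin N, (lift v ((((i : ℕ) : ℝ) + (1 - e)) / N) -
          lift v (((i : ℕ) : ℝ) / N))) ≤ N * (e + ε / (2 * N)) :=
          mul_le_mul_of_nonneg_left (by linarith) hNR.le
      _ = N * e + ε / 2 := by field_simp
      _ < ε := by linarith

/-- **The singular homeomorphism.** -/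
theorem exists_sing : ∃ Φ : ℝ → ℝ, Continuous Φ ∧ StrictMono Φ ∧ (∀ x, Φ (x + 1) = Φ x + 1) ∧
    ∀ ε > 0, Config Φ ε := by
  have hcE : CompleteSpace E := isClosed_E.completeSpace_coe
  have hne : Nonempty E := ⟨⟨0, fun x y hxy => by simpa [lift] using hxy⟩⟩
  -- the first family of open dense sets
  have hA : ∀ p : {p : ℚ × ℚ // p.1 < p.2},
      IsOpen {u : E | lift u.1 (p.1.1 : ℝ) < lift u.1 (p.1.2 : ℝ)} ∧
      Dense {u : E | lift u.1 (p.1.1 : ℝ) < lift u.1 (p.1.2 : ℝ)} := by
    intro p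
    constructor
    · exact isOpen_lt ((continuous_lift_left _).comp continuous_subtype_val)
        ((continuous_lift_left _).comp continuous_subtype_val)
    · rw [Metric.dense_iff]
      intro u r hr
      obtain ⟨t, ht0, ht1, htr⟩ : ∃ t : ℝ, 0 < t ∧ t < 1 ∧ t * ‖u.1‖ < r := by
        refine ⟨min (1 / 2) (r / (2 * (‖u.1‖ + 1))), lt_min (by norm_num) (by positivity),
          lt_of_le_of_lt (min_le_left _ _) (by norm_num), ?_⟩
        calc min (1 / 2) (r / (2 * (‖u.1‖ + 1))) * ‖u.1‖ ≤ r / (2 * (‖u.1‖ + 1)) * ‖u.1‖ :=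
              mul_le_mul_of_nonneg_right (min_le_right _ _) (norm_nonneg _)
          _ ≤ r / (2 * (‖u.1‖ + 1)) * (‖u.1‖ + 1) :=
              mul_le_mul_of_nonneg_left (by linarith) (by positivity)
          _ = r / 2 := by field_simp
          _ < r := by linarith
      have hlift : ∀ x, lift ((1 - t) • u.1) x = (1 - t) * lift u.1 x + t * x := by
        intro x
        simp only [lift, ContinuousMap.coe_smul, Pi.smul_apply, smul_eq_mul]
        ring
      have hmem : (1 - t) • u.1 ∈ E := by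
        intro x y hxy
        rw [hlift, hlift]
        have h1 : lift u.1 x ≤ lift u.1 y := u.2 hxy
        nlinarith
      refine ⟨⟨(1 - t) • u.1, hmem⟩, ?_, ?_⟩
      · rw [Metric.mem_ball, Subtype.dist_eq, dist_eq_norm]
        have h1 : (1 - t) • u.1 - u.1 = -(t • u.1) := by
          rw [sub_smul, one_smul]; abel
        change ‖(1 - t) • u.1 - u.1‖ < r
        rw [h1, norm_neg, norm_smul, Real.norm_eq_abs, abs_of_pos ht0]
        exact htr
      · change lift ((1 - t) • u.1) _ < lift ((1 - t) • u.1) _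
        rw [hlift, hlift]
        have h1 : lift u.1 (p.1.1 : ℝ) ≤ lift u.1 (p.1.2 : ℝ) := u.2 (by exact_mod_cast p.2.le)
        have h2 : (p.1.1 : ℝ) < (p.1.2 : ℝ) := by exact_mod_cast p.2
        nlinarith
  -- the second family
  have hB : ∀ n : ℕ, IsOpen {u : E | Config (lift u.1) (1 / (n + 1))} ∧
      Dense {u : E | Config (lift u.1) (1 / (n + 1))} := by
    intro n
    constructor
    · rw [isOpen_iff_mem_nhds]
      rintro u ⟨N, a, b, c, h1, h2, h3, h4⟩
      have hc : Continuous fun u : E => (N : ℝ) * (∑ i, (c i - b i) +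
          ∑ i, (lift u.1 (b i) - lift u.1 (a i))) := by
        refine continuous_const.mul (continuous_const.add (continuous_finsetSum _ fun i _ => ?_))
        exact ((continuous_lift_left _).comp continuous_subtype_val).sub
          ((continuous_lift_left _).comp continuous_subtype_val)
      filter_upwards [(isOpen_lt hc continuous_const).mem_nhds h4] with v hv
      exact ⟨N, a, b, c, h1, h2, h3, hv⟩
    · rw [Metric.dense_iff]
      intro u r hr
      obtain ⟨v, hv, hd, hcfg⟩ := exists_config u.2 hr (ε := 1 / ((n : ℝ) + 1)) (by positivity)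
      exact ⟨⟨v, hv⟩, by rw [Metric.mem_ball, Subtype.dist_eq]; exact hd, hcfg⟩
  have hres : ((⋂ p : {p : ℚ × ℚ // p.1 < p.2},
      {u : E | lift u.1 (p.1.1 : ℝ) < lift u.1 (p.1.2 : ℝ)}) ∩
      ⋂ n : ℕ, {u : E | Config (lift u.1) (1 / (n + 1))}) ∈ residual E := by
    refine inter_mem (countable_iInter_mem.2 fun p => ?_) (countable_iInter_mem.2 fun n => ?_)
    · exact residual_of_dense_open (hA p).1 (hA p).2
    · exact residual_of_dense_open (hB n).1 (hB n).2
  obtain ⟨u, hu1, hu2⟩ := (dense_of_mem_residual hres).nonempty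
  rw [mem_iInter] at hu1 hu2
  refine ⟨lift u.1, continuous_lift _, ?_, lift_add_one _, ?_⟩
  · intro x y hxy
    obtain ⟨p, hp1, hp2⟩ := exists_rat_btwn hxy
    obtain ⟨q, hq1, hq2⟩ := exists_rat_btwn hp2
    have h1 : lift u.1 x ≤ lift u.1 p := u.2 hp1.le
    have h2 : lift u.1 q ≤ lift u.1 y := u.2 hq2.le
    have h3 : lift u.1 (p : ℝ) < lift u.1 (q : ℝ) := hu1 ⟨(p, q), by exact_mod_cast hq1⟩
    linarith
  · intro ε hε
    obtain ⟨n, hn⟩ := exists_nat_one_div_lt hε
    obtain ⟨N, a, b, c, h1, h2, h3, h4⟩ := hu2 n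
    exact ⟨N, a, b, c, h1, h2, h3, h4.trans hn⟩

end Pool.Agent.Q302.RN
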